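import Pool.Agent.MP_57adf2_an.H72.FinQ1

/-! Mean convergence along `m, n, m + n, m n` for finitely generated multiplicative actions. -/

open MeasureTheory Filter Topology

theorem Pool.Agent.Results.MP_57adf2_an.Convergence.result {X : Type*} [MeasurableSpace X]
    (μ : Measure X) [IsProbabilityMeasure μ] (T : ℕ → X → X)
    (hT : ∀ n, 0 < n → MeasurePreserving (T n) μ μ)
    (hinv : ∀ n, 0 < n → ∃ S : X → X, Measurable S ∧ S ∘ T n =ᵐ[μ] id ∧ T n ∘ S =ᵐ[μ] id)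
    (hmul : ∀ m n, 0 < m → 0 < n → T (m * n) =ᵐ[μ] T m ∘ T n)
    (hfin : ∃ s : Finset (X → X), ∀ p : ℕ, p.Prime → ∃ S ∈ s, T p =ᵐ[μ] S)
    (F₁ F₂ F₃ F₄ : X → ℂ) (h₁ : MemLp F₁ ⊤ μ) (h₂ : MemLp F₂ ⊤ μ) (h₃ : MemLp F₃ ⊤ μ)
    (h₄ : MemLp F₄ ⊤ μ) :
    ∃ G : X → ℂ, MemLp G 2 μ ∧
      Tendsto (fun N : ℕ => eLpNorm (fun x =>
        (1 / (N : ℂ) ^ 2 * ∑ m ∈ Finset.Icc 1 N, ∑ n ∈ Finset.Icc 1 N,
          F₄ (T (m * n) x) * F₃ (T (m + n) x) * F₁ (T m x) * F₂ (T n x)) - G x) 2 μ)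
        atTop (𝓝 0) :=
  Pool.Agent.MP_57adf2_an.H72.final_Q1 T hT hinv hmul hfin h₁ h₂ h₃ h₄
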