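import Pool.Agent.MP_57adf2_an.H72.FinQ2

/-! Multiple recurrence along `m, n, m + n, m n` for finitely generated multiplicative actions. -/

open MeasureTheory Filter Topology

theorem Pool.Agent.Results.MP_57adf2_an.Recurrence.result {X : Type*} [MeasurableSpace X]
    (μ : Measure X) [IsProbabilityMeasure μ] (T : ℕ → X → X)
    (hT : ∀ n, 0 < n → MeasurePreserving (T n) μ μ)
    (hinv : ∀ n, 0 < n → ∃ S : X → X, Measurable S ∧ S ∘ T n =ᵐ[μ] id ∧ T n ∘ S =ᵐ[μ] id)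
    (hmul : ∀ m n, 0 < m → 0 < n → T (m * n) =ᵐ[μ] T m ∘ T n)
    (hfin : ∃ s : Finset (X → X), ∀ p : ℕ, p.Prime → ∃ S ∈ s, T p =ᵐ[μ] S)
    (A : Set X) (hA : MeasurableSet A) (h0 : 0 < μ A) :
    ∃ l : ℝ, 0 < l ∧
      Tendsto (fun N : ℕ => 1 / (N : ℝ) ^ 2 * ∑ m ∈ Finset.Icc 1 N, ∑ n ∈ Finset.Icc 1 N,
        (μ (A ∩ T (m * n) ⁻¹' A ∩ T (m + n) ⁻¹' A ∩ T m ⁻¹' A ∩ T n ⁻¹' A)).toReal)
        atTop (𝓝 l) :=
  Pool.Agent.MP_57adf2_an.H72.final_Q2 T hT hinv hmul hfin hA h0
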